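import Mathlib

namespace Pool.Agent.Results.MP_091b59_co.Bounded
open Finset

variable {V : Type}

/-- The sum index. -/
noncomputable def sumIndex (G : SimpleGraph V) : ℕ :=
  sInf {m | ∃ f : V → ℤ, f.Injective ∧ {s | ∃ u v, G.Adj u v ∧ f u + f v = s}.ncard = m}

/-- `G` plus `r` isolated vertices has an exclusive sum labelling. -/
def Excl (G : SimpleGraph V) (r : ℕ) : Prop :=
  ∃ g : V ⊕ Fin r → ℤ, g.Injective ∧ (∀ x, 0 < g x) ∧
    (∀ x y, x ≠ y → ((G ⊕g (⊥ : SimpleGraph (Fin r))).Adj x y ↔ ∃ w, g x + g y = g w)) ∧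
    ∀ u v, G.Adj u v → ∃ i, g (.inl u) + g (.inl v) = g (.inr i)

theorem sidon {a b c d : ℕ} (h : (2 : ℤ) ^ a + 2 ^ b = 2 ^ c + 2 ^ d) : a = c ∨ a = d := by
  have h' : 2 ^ a + 2 ^ b = 2 ^ c + 2 ^ d := by exact_mod_cast h
  have key : ∀ {a b c d : ℕ}, 2 ^ a + 2 ^ b = 2 ^ c + 2 ^ d → b ≤ a → d ≤ c → a ≤ c := by
    intro a b c d h h1 h2
    by_contra hc
    have e1 : 2 ^ (c + 1) ≤ 2 ^ a := Nat.pow_le_pow_right two_pos (by omega)
    have e2 : 2 ^ d ≤ 2 ^ c := Nat.pow_le_pow_right two_pos h2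
    have := Nat.two_pow_pos b
    omega
  have inj : ∀ {a b : ℕ}, 2 ^ a = 2 ^ b → a = b := fun h => Nat.pow_right_injective le_rfl h
  rcases le_total b a with h1 | h1 <;> rcases le_total d c with h2 | h2
  · exact .inl (le_antisymm (key h' h1 h2) (key h'.symm h2 h1))
  · exact .inr (le_antisymm (key (h'.trans (add_comm _ _)) h1 h2)
      (key (h'.trans (add_comm _ _)).symm h2 h1))
  · obtain rfl : b = c := le_antisymm (key ((add_comm _ _).trans h') h1 h2)
      (key ((add_comm _ _).trans h').symm h2 h1)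
    exact .inr (inj (by omega))
  · obtain rfl : b = d := le_antisymm (key ((add_comm _ _).trans (h'.trans (add_comm _ _))) h1 h2)
      (key ((add_comm _ _).trans (h'.trans (add_comm _ _))).symm h2 h1)
    exact .inl (inj (by omega))

theorem build [Finite V] (G : SimpleGraph V) (g : V → ℤ) (hg : g.Injective) (R : Finset ℤ)
    (h1 : ∀ u v, G.Adj u v → g u + g v ∈ R) (h2 : ∀ u v, g u + g v ∈ R → u ≠ v → G.Adj u v) :
    Excl G R.card := by
  obtain ⟨b, hb⟩ := (Set.finite_range g).bddBelow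
  obtain ⟨b', hb'⟩ := R.finite_toSet.bddBelow
  let K := |b| + |b'|
  have hv : ∀ v, 0 ≤ g v + K := fun v => by
    have := hb ⟨v, rfl⟩
    have := neg_abs_le b
    have := abs_nonneg b'
    omega
  have hr : ∀ i, 0 ≤ (R.equivFin.symm i).1 + 2 * K := fun i => by
    have := hb' (R.equivFin.symm i).2
    have := neg_abs_le b'
    have := abs_nonneg b
    have := abs_nonneg b'
    omega
  have key : ∀ u v, G.Adj u v → ∃ i, 4 * (g u + K) + 1 + (4 * (g v + K) + 1) =
      4 * ((R.equivFin.symm i).1 + 2 * K) + 2 := fun u v h =>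
    ⟨R.equivFin ⟨_, h1 u v h⟩, by simp; ring⟩
  refine ⟨Sum.elim (fun v => 4 * (g v + K) + 1) fun i => 4 * ((R.equivFin.symm i).1 + 2 * K) + 2,
    ?_, ?_, ?_, key⟩
  · rintro (x | x) (y | y) h <;> simp only [Sum.elim_inl, Sum.elim_inr] at h
    · rw [hg (by omega : g x = g y)]
    · omega
    · omega
    · rw [R.equivFin.symm.injective (Subtype.ext (by omega) : R.equivFin.symm x = R.equivFin.symm y)]
  · rintro (x | x)
    · have := hv x
      simp only [Sum.elim_inl]; omega
    · have := hr x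
      simp only [Sum.elim_inr]; omega
  · rintro (x | x) (y | y) h <;> simp only [Sum.elim_inl, Sum.elim_inr, Sum.exists,
      SimpleGraph.sum_adj_inl, SimpleGraph.sum_adj_inr, SimpleGraph.bot_adj,
      SimpleGraph.not_adj_sum_inl_inr, SimpleGraph.sum_adj, false_iff, not_or,
      not_exists]
    · refine ⟨fun h => .inr (key x y h), ?_⟩
      rintro (⟨w, e⟩ | ⟨i, e⟩)
      · omega
      · exact h2 x y ((show (R.equivFin.symm i).1 = g x + g y by omega) ▸ (R.equivFin.symm i).2)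
          fun e => h (by rw [e])
    all_goals exact ⟨fun _ => by omega, fun _ => by omega⟩

theorem result (C : ℕ) : ∃ N : ℕ, ∀ (V : Type) [Finite V] (G : SimpleGraph V),
    sumIndex G ≤ C → ∃ r ≤ N, Excl G r := by
  classical
  refine ⟨C * (2 ^ C * 2 ^ C), fun V _ G hG => ?_⟩
  obtain ⟨n, ⟨e⟩⟩ := Finite.exists_equiv_fin V
  obtain ⟨f, hf, hm⟩ : sumIndex G ∈ _ := Nat.sInf_mem ⟨_, fun v => ((e v).1 : ℤ),
    fun u v h => e.injective (Fin.ext (Int.natCast_inj.1 h)), rfl⟩
  have hfin : {s | ∃ u v, G.Adj u v ∧ f u + f v = s}.Finite :=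
    (Set.finite_range fun p : V × V => f p.1 + f p.2).subset fun _ ⟨u, v, _, h⟩ => ⟨(u, v), h⟩
  rw [Set.ncard_eq_toFinset_card _ hfin] at hm
  set S := hfin.toFinset
  have hS : ∀ u v, G.Adj u v → f u + f v ∈ S := fun u v h => hfin.mem_toFinset.2 ⟨u, v, h, rfl⟩
  let c : V → S.powerset := fun v =>
    ⟨S.filter fun s => ∃ u, G.Adj v u ∧ f v + f u = s, mem_powerset.2 (filter_subset _ _)⟩
  let k : S.powerset → ℕ := fun a => S.powerset.equivFin a
  have hk : k.Injective := fun a b h => S.powerset.equivFin.injective (Fin.ext h)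
  let M : ℤ := 2 * 2 ^ S.powerset.card
  have hM : ∀ a, (0 : ℤ) < 2 ^ k a ∧ 2 * 2 ^ k a < M := fun a => ⟨by positivity,
    mul_lt_mul_of_pos_left (pow_lt_pow_right₀ one_lt_two (S.powerset.equivFin a).2) two_pos⟩
  have dv : ∀ {s s' t t' : ℤ}, 0 < t → t < M → 0 < t' → t' < M → M * s + t = M * s' + t' →
      s = s' := by
    intro s s' t t' a b c d h
    rcases lt_trichotomy s s' with h' | h' | h'
    · nlinarith
    · exact h'
    · nlinarith
  let R := ((S ×ˢ (univ : Finset (S.powerset × S.powerset))).filter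
    fun p => p.1 ∈ p.2.1.1 ∧ p.1 ∈ p.2.2.1).image fun p => M * p.1 + (2 ^ k p.2.1 + 2 ^ k p.2.2)
  refine ⟨_, ?_, build G (fun v => M * f v + 2 ^ k (c v)) (fun u v h => hf ?_) R
    (fun u v h => ?_) fun u v h huv => ?_⟩
  · refine card_image_le.trans ((card_filter_le _ _).trans ?_)
    rw [card_product, card_univ, Fintype.card_prod, Fintype.card_coe, card_powerset, hm]
    gcongr <;> norm_num
  · have := hM (c u)
    have := hM (c v)
    exact dv (by omega) (by omega) (by omega) (by omega) h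
  · refine mem_image.2 ⟨(f u + f v, c u, c v), mem_filter.2 ⟨mem_product.2 ⟨hS u v h, mem_univ _⟩,
      mem_filter.2 ⟨hS u v h, v, h, rfl⟩, mem_filter.2 ⟨hS u v h, u, h.symm, add_comm _ _⟩⟩, by ring⟩
  · obtain ⟨⟨s, a, b⟩, hp, e⟩ := mem_image.1 h
    have h1 := (mem_filter.1 hp).2
    have e' : M * s + (2 ^ k a + 2 ^ k b) = M * (f u + f v) + (2 ^ k (c u) + 2 ^ k (c v)) :=
      e.trans (by ring)
    have := hM a
    have := hM b
    have := hM (c u)
    have := hM (c v)
    obtain rfl := dv (by omega) (by omega) (by omega) (by omega) e'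
    have h2 : f u + f v ∈ (c u).1 := (sidon (add_left_cancel e').symm).elim
      (fun h => hk h ▸ h1.1) fun h => hk h ▸ h1.2
    obtain ⟨w, hw, e⟩ := (mem_filter.1 h2).2
    exact hf (add_left_cancel e) ▸ hw

end Pool.Agent.Results.MP_091b59_co.Bounded
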